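import Pool.Agent.Lib.MP_b1de93_lc.NotRP

set_option autoImplicit false

namespace Pool.Agent.Results.MP_b1de93_lc.CollectionNotRP

open Pool.Agent.Lib.MP_b1de93_lc

/-- There is a model of `ZFU_R` + Collection in which some instance of the first-order reflection
scheme RP fails. -/
theorem result : ∃ (M : Type 1) (_ : LU.Structure M),
    ModelsZFUR M ∧ ModelsCollection M ∧
      ∃ (m : ℕ) (φ : LU.Formula (Fin m)), ¬ ModelsRP M φ :=
  ⟨M, inferInstance, modelsZFUR, modelsCollection, 2, phiF, not_modelsRP⟩

end Pool.Agent.Results.MP_b1de93_lc.CollectionNotRP
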